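import Pool.Agent.Q91.PT.Stm

/-!
# JOB MGF: exponential moments and the variance of the area
-/

set_option autoImplicit false

namespace Pool.Agent.Q262.PT.MGF

open Finset Pool.Agent.Q91.PT
open scoped Classical

noncomputable section

theorem binom_exp (θ : ℝ) (κ : ℕ) :
    (∑ j ∈ range (κ + 1), (κ.choose j : ℝ) * Real.exp (θ * ((κ : ℝ) - 2 * (j : ℕ)))) / 2 ^ κ =
      Real.cosh θ ^ κ := by
  have h1 : ∑ j ∈ range (κ + 1), (κ.choose j : ℝ) * Real.exp (θ * ((κ : ℝ) - 2 * (j : ℕ))) =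
      (Real.exp (-θ) + Real.exp θ) ^ κ := by
    rw [add_pow]
    apply sum_congr rfl
    intro j hj
    have hj' : j ≤ κ := Nat.lt_succ_iff.1 (mem_range.1 hj)
    have e : Real.exp (θ * ((κ : ℝ) - 2 * (j : ℕ))) =
        Real.exp (-θ) ^ j * Real.exp θ ^ (κ - j) := by
      rw [← Real.exp_nat_mul, ← Real.exp_nat_mul, ← Real.exp_add]
      congr 1
      push_cast [Nat.cast_sub hj']
      ring
    rw [e]
    ring
  rw [h1, Real.cosh_eq, div_pow, add_comm]

theorem binom_sq (κ : ℕ) : ∀ c : ℝ,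
    ∑ j ∈ range (κ + 1), (κ.choose j : ℝ) * (c + (j : ℕ)) ^ 2 =
      2 ^ κ * ((c + κ / 2) ^ 2 + κ / 4) := by
  induction κ with
  | zero => intro c; simp
  | succ κ ih =>
    intro c
    have h1 := sum_choose_succ_mul (R := ℝ) (fun i _ => (c + (i : ℕ)) ^ 2) κ
    have h2 := ih c
    have h3 := ih (c + 1)
    have h4 : ∑ j ∈ range (κ + 1), (κ.choose j : ℝ) * (c + ((j + 1 : ℕ) : ℝ)) ^ 2 =
        2 ^ κ * ((c + 1 + κ / 2) ^ 2 + κ / 4) := by
      rw [← h3]
      apply sum_congr rfl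
      intro j _
      push_cast
      ring
    rw [h1, h4, h2]
    push_cast
    ring

theorem t (habs : S_abs) : S_mgf := by
  intro α X F g b A h
  refine ⟨?_, ?_⟩
  · intro n θ hn
    have h1 := habs α ℝ X F g b A h (fun _ j κ => Real.exp (θ * ((κ : ℝ) - 2 * (j : ℕ))))
    rw [h1, ← nsmul_eq_mul, ← sum_const]
    apply sum_le_sum
    intro x hx
    rw [binom_exp]
    have h2 : Real.cosh θ ≤ Real.exp (θ ^ 2 / 2) := Real.cosh_le_exp_half_sq θ
    calc Real.cosh θ ^ (F x).card ≤ Real.exp (θ ^ 2 / 2) ^ (F x).card :=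
          pow_le_pow_left₀ (Real.cosh_pos θ).le h2 _
      _ = Real.exp ((F x).card * (θ ^ 2 / 2)) := by rw [← Real.exp_nat_mul]
      _ ≤ Real.exp (θ ^ 2 * n / 2) := by
          apply Real.exp_le_exp.2
          have h3 : ((F x).card : ℝ) ≤ n := by exact_mod_cast hn x hx
          have h4 : 0 ≤ θ ^ 2 := sq_nonneg θ
          nlinarith
  · intro y
    have h1 := habs α ℝ X F g b A h (fun β j _ => ((β : ℝ) + (j : ℕ) - y) ^ 2)
    have h2 : ∑ x ∈ X, ((A x : ℝ) - y) ^ 2 =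
        ∑ x ∈ X, (((A x - Dn F b x : ℤ) : ℝ) + (Dn F b x : ℕ) - y) ^ 2 := by
      apply sum_congr rfl
      intro x _
      push_cast
      ring
    rw [h2, h1]
    apply sum_le_sum
    intro x _
    have h3 := binom_sq (F x).card (((A x - Dn F b x : ℤ) : ℝ) - y)
    have h4 : ∑ j ∈ range ((F x).card + 1), ((F x).card.choose j : ℝ) *
        (((A x - Dn F b x : ℤ) : ℝ) + (j : ℕ) - y) ^ 2 =
        2 ^ (F x).card * ((((A x - Dn F b x : ℤ) : ℝ) - y + (F x).card / 2) ^ 2 +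
          (F x).card / 4) := by
      rw [← h3]
      apply sum_congr rfl
      intro j _
      ring
    rw [h4]
    have h5 : (2 : ℝ) ^ (F x).card ≠ 0 := by positivity
    rw [mul_div_cancel_left₀ _ h5]
    have := sq_nonneg (((A x - Dn F b x : ℤ) : ℝ) - y + (F x).card / 2)
    linarith

end

end Pool.Agent.Q262.PT.MGF
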