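import Pool.Agent.Q91.PT.Stm

/-!
# JOB ABS: the states are independent fair coins
-/

set_option autoImplicit false

namespace Pool.Agent.Q262.PT.ABS

open Finset Pool.Agent.Q91.PT
open scoped Classical

noncomputable section

variable {α : Type} {X : Finset α} {F : α → Finset ℕ} {g : α → ℕ → α} {b : α → ℕ → Prop} {A : α → ℤ}

theorem Dn_up (h : Flips X F g b A) {x : α} (hx : x ∈ X) {k : ℕ} (hk : k ∈ F x) (hb : ¬ b x k) :
    Dn F b (g x k) = Dn F b x + 1 := by
  obtain ⟨h1, h2, h3, h4, h5, h6⟩ := h x hx k hk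
  unfold Dn
  rw [h2]
  have e : (F x).filter (fun k' => b (g x k) k') = insert k ((F x).filter (fun k' => b x k')) := by
    ext k'
    simp only [mem_filter, mem_insert]
    by_cases hkk : k' = k
    · subst hkk; simp [hk, h5, hb]
    · constructor
      · rintro ⟨h7, h8⟩; exact Or.inr ⟨h7, (h4 k' h7 hkk).1 h8⟩
      · rintro (h7 | ⟨h7, h8⟩)
        · exact absurd h7 hkk
        · exact ⟨h7, (h4 k' h7 hkk).2 h8⟩
  rw [e, card_insert_of_notMem]
  simp [hb]

theorem Dn_down (h : Flips X F g b A) {x : α} (hx : x ∈ X) {k : ℕ} (hk : k ∈ F x) (hb : b x k) :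
    Dn F b (g x k) + 1 = Dn F b x := by
  obtain ⟨h1, h2, h3, h4, h5, h6⟩ := h x hx k hk
  have hb' : ¬ b (g x k) k := by rw [h5]; simpa using hb
  have hk' : k ∈ F (g x k) := by rw [h2]; exact hk
  have h7 := Dn_up h h1 hk' hb'
  rw [h3] at h7
  exact h7.symm

theorem base_eq (h : Flips X F g b A) {x : α} (hx : x ∈ X) {k : ℕ} (hk : k ∈ F x) :
    A (g x k) - Dn F b (g x k) = A x - Dn F b x := by
  obtain ⟨h1, h2, h3, h4, h5, h6⟩ := h x hx k hk
  by_cases hb : b x k
  · have h7 := Dn_down h hx hk hb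
    rw [h6, if_pos hb, ← h7]
    push_cast
    ring
  · have h7 := Dn_up h hx hk hb
    rw [h6, if_neg hb, h7]
    push_cast
    ring

/-- the number of the elements with `j` positions in state true -/
def nn (X : Finset α) (F : α → Finset ℕ) (b : α → ℕ → Prop) (j : ℕ) : ℕ :=
  (X.filter (fun x => Dn F b x = j)).card

theorem card_not (x : α) : ((F x).filter (fun k => ¬ b x k)).card = (F x).card - Dn F b x := by
  have h := card_filter_add_card_filter_not (s := F x) (fun k => b x k)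
  unfold Dn
  omega

theorem step (h : Flips X F g b A) {κ : ℕ} (hκ : ∀ x ∈ X, (F x).card = κ) (j : ℕ) :
    nn X F b j * (κ - j) = nn X F b (j + 1) * (j + 1) := by
  have h1 : ((X.filter (fun x => Dn F b x = j)).sigma
      (fun x => (F x).filter (fun k => ¬ b x k))).card = nn X F b j * (κ - j) := by
    rw [card_sigma]
    unfold nn
    rw [← smul_eq_mul, ← sum_const]
    apply sum_congr rfl
    intro x hx
    rw [mem_filter] at hx
    rw [card_not, hκ x hx.1, hx.2]
  have h2 : ((X.filter (fun x => Dn F b x = j + 1)).sigma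
      (fun x => (F x).filter (fun k => b x k))).card = nn X F b (j + 1) * (j + 1) := by
    rw [card_sigma]
    unfold nn
    rw [← smul_eq_mul, ← sum_const]
    apply sum_congr rfl
    intro x hx
    rw [mem_filter] at hx
    exact hx.2
  rw [← h1, ← h2]
  apply card_nbij' (fun p => ⟨g p.1 p.2, p.2⟩) (fun p => ⟨g p.1 p.2, p.2⟩)
  · rintro ⟨x, k⟩ hp
    simp only [coe_sigma, Set.mem_sigma_iff, coe_filter, Set.mem_setOf_eq] at hp ⊢
    obtain ⟨⟨hx, hj⟩, hk, hb⟩ := hp
    obtain ⟨q1, q2, q3, q4, q5, q6⟩ := h x hx k hk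
    refine ⟨⟨q1, ?_⟩, ?_, ?_⟩
    · rw [Dn_up h hx hk hb, hj]
    · rw [q2]; exact hk
    · rw [q5]; exact hb
  · rintro ⟨x, k⟩ hp
    simp only [coe_sigma, Set.mem_sigma_iff, coe_filter, Set.mem_setOf_eq] at hp ⊢
    obtain ⟨⟨hx, hj⟩, hk, hb⟩ := hp
    obtain ⟨q1, q2, q3, q4, q5, q6⟩ := h x hx k hk
    refine ⟨⟨q1, ?_⟩, ?_, ?_⟩
    · have := Dn_down h hx hk hb
      omega
    · rw [q2]; exact hk
    · rw [q5]; simpa using hb
  · rintro ⟨x, k⟩ hp
    simp only [coe_sigma, Set.mem_sigma_iff, coe_filter, Set.mem_setOf_eq] at hp ⊢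
    obtain ⟨⟨hx, hj⟩, hk, hb⟩ := hp
    obtain ⟨q1, q2, q3, q4, q5, q6⟩ := h x hx k hk
    simp only [q3]
  · rintro ⟨x, k⟩ hp
    simp only [coe_sigma, Set.mem_sigma_iff, coe_filter, Set.mem_setOf_eq] at hp ⊢
    obtain ⟨⟨hx, hj⟩, hk, hb⟩ := hp
    obtain ⟨q1, q2, q3, q4, q5, q6⟩ := h x hx k hk
    simp only [q3]

theorem nn_eq (h : Flips X F g b A) {κ : ℕ} (hκ : ∀ x ∈ X, (F x).card = κ) (j : ℕ) :
    nn X F b j = κ.choose j * nn X F b 0 := by
  induction j with
  | zero => simp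
  | succ j ih =>
    have h1 := step h hκ j
    have h2 := Nat.choose_succ_right_eq κ j
    have h3 : nn X F b (j + 1) * (j + 1) = (κ.choose (j + 1) * nn X F b 0) * (j + 1) := by
      rw [← h1, ih]
      calc κ.choose j * nn X F b 0 * (κ - j) = (κ.choose j * (κ - j)) * nn X F b 0 := by ring
        _ = (κ.choose (j + 1) * (j + 1)) * nn X F b 0 := by rw [h2]
        _ = _ := by ring
    exact Nat.eq_of_mul_eq_mul_right (Nat.succ_pos j) h3

theorem sum_nn {R : Type} [Field R] {κ : ℕ} (hκ : ∀ x ∈ X, (F x).card = κ)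
    (H : ℕ → R) : ∑ x ∈ X, H (Dn F b x) = ∑ j ∈ range (κ + 1), (nn X F b j : R) * H j := by
  have hm : ∀ x ∈ X, Dn F b x ∈ range (κ + 1) := by
    intro x hx
    rw [mem_range, ← hκ x hx]
    exact Nat.lt_succ_of_le (card_filter_le _ _)
  rw [← sum_fiberwise_of_maps_to hm]
  apply sum_congr rfl
  intro j _
  unfold nn
  rw [← nsmul_eq_mul, ← sum_const]
  apply sum_congr rfl
  intro x hx
  rw [(mem_filter.1 hx).2]

theorem cls {R : Type} [Field R] [CharZero R] (h : Flips X F g b A) {κ : ℕ}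
    (hκ : ∀ x ∈ X, (F x).card = κ) (H : ℕ → R) :
    ∑ x ∈ X, H (Dn F b x) =
      ∑ x ∈ X, (∑ j ∈ range (κ + 1), (κ.choose j : R) * H j) / 2 ^ κ := by
  have h1 : (X.card : R) = nn X F b 0 * 2 ^ κ := by
    have h2 := sum_nn (X := X) (F := F) (b := b) (R := R) hκ (fun _ => 1)
    simp only [sum_const, nsmul_eq_mul, mul_one] at h2
    rw [h2]
    have h3 : ∀ j ∈ range (κ + 1), (nn X F b j : R) = (κ.choose j : R) * (nn X F b 0 : R) := by
      intro j _
      rw [nn_eq h hκ j]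
      push_cast
      ring
    rw [sum_congr rfl h3, ← sum_mul]
    have h4 : ∑ j ∈ range (κ + 1), (κ.choose j : R) = 2 ^ κ := by
      have := Nat.sum_range_choose κ
      exact_mod_cast congrArg (Nat.cast : ℕ → R) this
    rw [h4]
    ring
  rw [sum_nn hκ H, sum_const, nsmul_eq_mul, h1]
  have h5 : ∀ j ∈ range (κ + 1), (nn X F b j : R) * H j =
      (nn X F b 0 : R) * ((κ.choose j : R) * H j) := by
    intro j _
    rw [nn_eq h hκ j]
    push_cast
    ring
  rw [sum_congr rfl h5, ← mul_sum]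
  have h6 : (2 : R) ^ κ ≠ 0 := pow_ne_zero _ two_ne_zero
  field_simp

theorem t : S_abs := by
  intro α R _ _ X F g b A h H
  have hm : ∀ x ∈ X, ((A x - Dn F b x, (F x).card) : ℤ × ℕ) ∈
      X.image (fun x => ((A x - Dn F b x, (F x).card) : ℤ × ℕ)) :=
    fun x hx => mem_image_of_mem _ hx
  rw [← sum_fiberwise_of_maps_to hm, ← sum_fiberwise_of_maps_to hm]
  apply sum_congr rfl
  rintro ⟨β, κ⟩ _
  have hY : ∀ x ∈ X.filter (fun x => ((A x - Dn F b x, (F x).card) : ℤ × ℕ) = (β, κ)),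
      A x - Dn F b x = β ∧ (F x).card = κ := by
    intro x hx
    have := (mem_filter.1 hx).2
    simpa using this
  have hF : Flips (X.filter (fun x => ((A x - Dn F b x, (F x).card) : ℤ × ℕ) = (β, κ))) F g b A := by
    intro x hx k hk
    have hx' := (mem_filter.1 hx).1
    obtain ⟨q1, q2, q3, q4, q5, q6⟩ := h x hx' k hk
    refine ⟨?_, q2, q3, q4, q5, q6⟩
    rw [mem_filter]
    refine ⟨q1, ?_⟩
    rw [base_eq h hx' hk, q2]
    exact (mem_filter.1 hx).2
  have h1 := cls (R := R) hF (fun x hx => (hY x hx).2) (fun j => H β j κ)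
  calc _ = ∑ x ∈ X.filter (fun x => ((A x - Dn F b x, (F x).card) : ℤ × ℕ) = (β, κ)),
        H β (Dn F b x) κ := by
        apply sum_congr rfl
        intro x hx
        rw [(hY x hx).1, (hY x hx).2]
    _ = _ := h1
    _ = _ := by
        apply sum_congr rfl
        intro x hx
        rw [(hY x hx).1, (hY x hx).2]

end

end Pool.Agent.Q262.PT.ABS
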