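import Pool.Agent.Q91.PT.Stm

/-!
# JOB RTI: neighbouring values
-/

set_option autoImplicit false

namespace Pool.Agent.Q262.PT.RTI

open Finset Pool.Agent.Q91.PT
open scoped Classical

noncomputable section

/-- the mean absolute deviation on a subset -/
theorem dev {α : Type} (X Y : Finset α) (hY : Y ⊆ X) (D : α → ℝ) (n : ℕ) (hn : 1 ≤ n)
    (h : ∀ θ : ℝ, ∑ x ∈ X, Real.exp (θ * D x) ≤ X.card * Real.exp (θ ^ 2 * n / 2)) :
    ∑ x ∈ Y, |D x| ≤ (Y.card : ℝ) * Real.sqrt (2 * n * Real.log (2 * X.card / Y.card)) := by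
  rcases Y.eq_empty_or_nonempty with h0 | h0
  · subst h0; simp
  have hN : (0 : ℝ) < Y.card := by exact_mod_cast h0.card_pos
  have hXN : (Y.card : ℝ) ≤ X.card := by exact_mod_cast card_le_card hY
  have hX : (0 : ℝ) < X.card := lt_of_lt_of_le hN hXN
  have hn' : (0 : ℝ) < n := by exact_mod_cast hn
  set L : ℝ := Real.log (2 * X.card / Y.card) with hL
  have hr : (0 : ℝ) < 2 * X.card / Y.card := by positivity
  have hLpos : 0 < L := by
    apply Real.log_pos
    rw [lt_div_iff₀ hN]
    linarith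
  set s : ℝ := Real.sqrt (2 * n * L) with hs
  have hs2 : s ^ 2 = 2 * n * L := Real.sq_sqrt (by positivity)
  have hspos : 0 < s := Real.sqrt_pos.2 (by positivity)
  set θ : ℝ := s / n with hθ
  have hθpos : 0 < θ := div_pos hspos hn'
  have hθs : θ * s = 2 * L := by
    rw [hθ]
    field_simp
    rw [hs2]
    ring
  have hθn : θ ^ 2 * n / 2 = L := by
    rw [hθ]
    field_simp
    rw [hs2]
    ring
  have heL : Real.exp L = 2 * X.card / Y.card := Real.exp_log hr
  have he2 : Real.exp (θ * s) = (2 * X.card / Y.card) ^ 2 := by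
    rw [hθs, two_mul, Real.exp_add, heL]
    ring
  -- upper bound of the exponential sum
  have h1 : ∑ x ∈ Y, Real.exp (θ * |D x|) ≤ 2 * (X.card * (2 * X.card / Y.card)) := by
    have h2 := h θ
    have h3 := h (-θ)
    have h4 : (-θ) ^ 2 * n / 2 = L := by rw [neg_sq, hθn]
    rw [hθn, heL] at h2
    rw [h4, heL] at h3
    calc ∑ x ∈ Y, Real.exp (θ * |D x|) ≤ ∑ x ∈ Y, (Real.exp (θ * D x) + Real.exp (-θ * D x)) := by
          apply sum_le_sum
          intro x _
          have e1 := Real.exp_pos (θ * D x)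
          have e2 := Real.exp_pos (-θ * D x)
          rcases abs_cases (D x) with ⟨h5, _⟩ | ⟨h5, _⟩
          · rw [h5]; linarith
          · rw [h5, mul_neg, ← neg_mul]; linarith
      _ ≤ ∑ x ∈ X, (Real.exp (θ * D x) + Real.exp (-θ * D x)) := by
          apply sum_le_sum_of_subset_of_nonneg hY
          intro x _ _
          positivity
      _ = ∑ x ∈ X, Real.exp (θ * D x) + ∑ x ∈ X, Real.exp (-θ * D x) := sum_add_distrib
      _ ≤ _ := by linarith
  -- lower bound by the tangent
  have h2 : (2 * X.card / Y.card) ^ 2 * (Y.card + θ * (∑ x ∈ Y, |D x| - Y.card * s)) ≤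
      ∑ x ∈ Y, Real.exp (θ * |D x|) := by
    calc (2 * X.card / Y.card : ℝ) ^ 2 * (Y.card + θ * (∑ x ∈ Y, |D x| - Y.card * s)) =
        ∑ x ∈ Y, (2 * X.card / Y.card : ℝ) ^ 2 * (1 + θ * (|D x| - s)) := by
          rw [← mul_sum, sum_add_distrib, ← mul_sum, sum_sub_distrib]
          simp
      _ ≤ _ := by
          apply sum_le_sum
          intro x _
          rw [← he2]
          have h3 := Real.add_one_le_exp (θ * (|D x| - s))
          have h4 : Real.exp (θ * |D x|) = Real.exp (θ * s) * Real.exp (θ * (|D x| - s)) := by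
            rw [← Real.exp_add]
            congr 1
            ring
          rw [h4]
          apply mul_le_mul_of_nonneg_left _ (Real.exp_pos _).le
          linarith
  have h3 : (2 * X.card / Y.card : ℝ) ^ 2 * (θ * (∑ x ∈ Y, |D x| - Y.card * s)) ≤ 0 := by
    have h4 : (2 * X.card / Y.card : ℝ) ^ 2 * Y.card = 2 * (X.card * (2 * X.card / Y.card)) := by
      field_simp
      try ring
    have h5 := h2.trans h1
    nlinarith
  by_contra hc
  push Not at hc
  have h6 : 0 < (2 * X.card / Y.card : ℝ) ^ 2 * (θ * (∑ x ∈ Y, |D x| - Y.card * s)) := by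
    apply mul_pos (by positivity)
    apply mul_pos hθpos
    linarith
  linarith

/-- the binomial identity -/
theorem shift (κ : ℕ) (β a : ℤ) :
    ∑ j ∈ range (κ + 1), (κ.choose j : ℝ) *
        (if β + (j : ℕ) = a then ((κ : ℝ) - (j : ℕ)) / κ else 0) =
      ∑ j ∈ range (κ + 1), (κ.choose j : ℝ) *
        (if β + (j : ℕ) = a + 1 then ((j : ℕ) : ℝ) / κ else 0) := by
  rw [sum_range_succ, sum_range_succ' (fun j => (κ.choose j : ℝ) *
        (if β + (j : ℕ) = a + 1 then ((j : ℕ) : ℝ) / κ else 0))]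
  have h0 : (κ.choose κ : ℝ) * (if β + (κ : ℕ) = a then ((κ : ℝ) - (κ : ℕ)) / κ else 0) = 0 := by
    simp
  have h1 : (κ.choose 0 : ℝ) * (if β + ((0 : ℕ) : ℤ) = a + 1 then (((0 : ℕ) : ℕ) : ℝ) / κ else 0) =
      0 := by simp
  rw [h0, h1]
  congr 1
  apply sum_congr rfl
  intro j hj
  have hj' : j ≤ κ := (mem_range.1 hj).le
  by_cases hc : β + (j : ℤ) = a
  · have hc' : β + ((j + 1 : ℕ) : ℤ) = a + 1 := by push_cast; linarith
    rw [if_pos hc, if_pos hc']
    have h2 := Nat.choose_succ_right_eq κ j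
    have h3 : (κ.choose (j + 1) : ℝ) * ((j + 1 : ℕ) : ℝ) = κ.choose j * ((κ : ℝ) - j) := by
      rw [← Nat.cast_sub hj']
      exact_mod_cast h2
    rw [← mul_div_assoc, ← mul_div_assoc, h3]
  · have hc' : ¬ β + ((j + 1 : ℕ) : ℤ) = a + 1 := by
      intro h
      apply hc
      push_cast at h
      linarith
    rw [if_neg hc, if_neg hc']
    simp

theorem t (habs : S_abs) (hmgf : S_mgf) : S_rti := by
  intro α X F g b A h n κ hκ hK a
  -- step 1: the identity
  have h1 := habs α ℝ X F g b A h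
    (fun β j K => if β + (j : ℕ) = a then ((K : ℝ) - (j : ℕ)) / K else 0)
  have h2 := habs α ℝ X F g b A h
    (fun β j K => if β + (j : ℕ) = a + 1 then ((j : ℕ) : ℝ) / K else 0)
  have h3 : ∑ x ∈ X, (if A x = a then (((F x).card : ℝ) - Dn F b x) / (F x).card else 0) =
      ∑ x ∈ X, (if A x = a + 1 then (Dn F b x : ℝ) / (F x).card else 0) := by
    calc _ = ∑ x ∈ X, (if A x - Dn F b x + (Dn F b x : ℕ) = a then
          (((F x).card : ℝ) - (Dn F b x : ℕ)) / (F x).card else 0) := by
          apply sum_congr rfl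
          intro x _
          rw [sub_add_cancel]
      _ = _ := h1
      _ = _ := by
          apply sum_congr rfl
          intro x _
          rw [shift]
      _ = _ := h2.symm
      _ = _ := by
          apply sum_congr rfl
          intro x _
          rw [sub_add_cancel]
  rw [← sum_filter, ← sum_filter] at h3
  have hpos : ∀ x ∈ X, (0 : ℝ) < (F x).card := fun x hx => lt_of_lt_of_le hκ (hK x hx).1
  set Ya := X.filter (fun x => A x = a) with hYa
  set Yb := X.filter (fun x => A x = a + 1) with hYb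
  have h4 : ∑ x ∈ Ya, (((F x).card : ℝ) - Dn F b x) / (F x).card =
      (Ya.card : ℝ) / 2 + ∑ x ∈ Ya, (((F x).card : ℝ) - 2 * Dn F b x) / (F x).card / 2 := by
    have : (Ya.card : ℝ) / 2 = ∑ x ∈ Ya, (1 : ℝ) / 2 := by
      rw [sum_const, nsmul_eq_mul]; ring
    rw [this, ← sum_add_distrib]
    apply sum_congr rfl
    intro x hx
    have := hpos x (mem_filter.1 hx).1
    field_simp
    ring
  have h5 : ∑ x ∈ Yb, (Dn F b x : ℝ) / (F x).card =
      (Yb.card : ℝ) / 2 - ∑ x ∈ Yb, (((F x).card : ℝ) - 2 * Dn F b x) / (F x).card / 2 := by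
    have : (Yb.card : ℝ) / 2 = ∑ x ∈ Yb, (1 : ℝ) / 2 := by
      rw [sum_const, nsmul_eq_mul]; ring
    rw [this, ← sum_sub_distrib]
    apply sum_congr rfl
    intro x hx
    have := hpos x (mem_filter.1 hx).1
    field_simp
    ring
  rw [h4, h5, ← sum_div, ← sum_div] at h3
  have h6 : (Yb.card : ℝ) - Ya.card =
      ∑ x ∈ Ya, (((F x).card : ℝ) - 2 * Dn F b x) / (F x).card +
        ∑ x ∈ Yb, (((F x).card : ℝ) - 2 * Dn F b x) / (F x).card := by linarith
  -- step 2: bounds
  have hb : ∀ Y ⊆ X, |∑ x ∈ Y, (((F x).card : ℝ) - 2 * Dn F b x) / (F x).card| ≤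
      (Y.card : ℝ) * Real.sqrt (2 * n * Real.log (2 * X.card / Y.card)) / κ := by
    intro Y hY
    rcases Y.eq_empty_or_nonempty with h0 | ⟨x0, hx0⟩
    · subst h0; simp
    have hn : 1 ≤ n := by
      have q := (hK x0 (hY hx0)).2
      have q2 := hpos x0 (hY hx0)
      have q3 : 0 < (F x0).card := by exact_mod_cast q2
      omega
    have hd := dev X Y hY (fun x => ((F x).card : ℝ) - 2 * Dn F b x) n hn
      (fun θ => (hmgf α X F g b A h).1 n θ (fun x hx => (hK x hx).2))
    calc |∑ x ∈ Y, (((F x).card : ℝ) - 2 * Dn F b x) / (F x).card| ≤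
        ∑ x ∈ Y, |(((F x).card : ℝ) - 2 * Dn F b x) / (F x).card| := abs_sum_le_sum_abs _ _
      _ ≤ ∑ x ∈ Y, |((F x).card : ℝ) - 2 * Dn F b x| / κ := by
          apply sum_le_sum
          intro x hx
          rw [abs_div, abs_of_pos (hpos x (hY hx))]
          exact div_le_div_of_nonneg_left (abs_nonneg _) hκ (hK x (hY hx)).1
      _ = (∑ x ∈ Y, |((F x).card : ℝ) - 2 * Dn F b x|) / κ := by rw [sum_div]
      _ ≤ _ := div_le_div_of_nonneg_right hd hκ.le
  have ha := hb Ya (filter_subset _ _)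
  have hb' := hb Yb (filter_subset _ _)
  have e1 : NA X A a = (Ya.card : ℝ) := rfl
  have e2 : NA X A (a + 1) = (Yb.card : ℝ) := rfl
  rw [e1, e2, h6, add_div]
  exact (abs_add_le _ _).trans (add_le_add ha hb')

end

end Pool.Agent.Q262.PT.RTI
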